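import Pool.Agent.Helper42.TG.Defs
import Pool.Agent.Helper8.T3.MC

/-!
# Project TG (MP_a41896_nt), packet LNK: algebraic independence over `κ` means free
-/

set_option autoImplicit false
set_option linter.unusedSectionVars false

open MvPolynomial

namespace Pool.Agent.Helper14.TG

open Height Height.AdmissibleAbsValues
open Pool.Agent.Helper29.BL Pool.Agent.Helper92.Ru Pool.Agent.Helper42.SG
open Pool.Agent.Helper60.HC (Lo)
open Pool.Agent.Helper42.TG

/-! ## Germs in `L` -/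

section germs

variable {K : Type} [Field K] [NumberField K] (U : Ultrafilter ℕ)
  (L : Type) [Field L] [Algebra (GK K U) L]

/-- the ring homomorphism `f ↦ gl U L f` -/
noncomputable def gh : (ℕ → K) →+* L :=
  (algebraMap (GK K U) L).comp (Filter.Germ.coeRingHom (U : Filter ℕ))

theorem gh_eq (f : ℕ → K) : gh U L f = gl U L f := rfl

theorem gl_eq_iff (f g : ℕ → K) : gl U L f = gl U L g ↔ ∀ᶠ k in (U : Filter ℕ), f k = g k := by
  constructor
  · intro h
    have h1 : gm U f = gm U g := (algebraMap (GK K U) L).injective h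
    exact Filter.Germ.coe_eq.1 h1
  · intro h
    have h1 : gm U f = gm U g := Filter.Germ.coe_eq.2 h
    exact congrArg (algebraMap (GK K U) L) h1

theorem gl_eq_zero_iff (f : ℕ → K) : gl U L f = 0 ↔ ∀ᶠ k in (U : Filter ℕ), f k = 0 := by
  have h0 : (0 : L) = gl U L (fun _ => (0 : K)) := (map_zero (gh U L (K := K))).symm
  rw [h0, gl_eq_iff]

theorem gl_inv (f : ℕ → K) : gl U L (fun k => (f k)⁻¹) = (gl U L f)⁻¹ := by
  have h1 : gm U (fun k => (f k)⁻¹) = (gm U f)⁻¹ := Filter.Germ.coe_inv f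
  unfold gl
  rw [h1, map_inv₀]

theorem gl_sum {ι τ : Type} [Fintype τ] (B : Finset ι) (e : ι → τ → ℕ) (f : ι → ℕ → K)
    (s : τ → ℕ → K) :
    ∑ m ∈ B, gl U L (f m) * ∏ i, gl U L (s i) ^ e m i =
      gl U L (fun k => ∑ m ∈ B, f m k * ∏ i, s i k ^ e m i) := by
  have h : (fun k => ∑ m ∈ B, f m k * ∏ i, s i k ^ e m i) =
      ∑ m ∈ B, f m * ∏ i, s i ^ e m i := by
    funext k
    simp [Finset.sum_apply, Finset.prod_apply]
  rw [h]
  show _ = gh U L _
  rw [map_sum]
  refine Finset.sum_congr rfl fun m _ => ?_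
  rw [map_mul, map_prod]
  refine congrArg _ (Finset.prod_congr rfl fun i _ => ?_)
  rw [map_pow]
  rfl

end germs

/-! ## Slow sequences -/

section slow

variable {K : Type} [Field K] [NumberField K] (U : Ultrafilter ℕ) (T : ℕ → ℝ)

/-- slow sequences -/
def sl (f : ℕ → K) : Prop :=
  ∀ η : ℝ, 0 < η → ∀ᶠ k in (U : Filter ℕ), logHeight₁ (f k) ≤ η * T k

variable {U T}

theorem ev_const (hT : ∀ R : ℝ, ∀ᶠ k in (U : Filter ℕ), R ≤ T k) (c : ℝ) {η : ℝ} (hη : 0 < η) :
    ∀ᶠ k in (U : Filter ℕ), c ≤ η * T k := by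
  filter_upwards [hT (c / η)] with k hk
  rw [div_le_iff₀ hη] at hk
  linarith

theorem sl_const (hT : ∀ R : ℝ, ∀ᶠ k in (U : Filter ℕ), R ≤ T k) (a : K) :
    sl U T (fun _ => a) := fun _ hη => ev_const hT _ hη

theorem sl_add (hT : ∀ R : ℝ, ∀ᶠ k in (U : Filter ℕ), R ≤ T k) {f g : ℕ → K} (hf : sl U T f)
    (hg : sl U T g) : sl U T (fun k => f k + g k) := by
  intro η hη
  have h3 : 0 < η / 3 := by positivity
  filter_upwards [hf _ h3, hg _ h3, ev_const hT (totalWeight K * Real.log 2) h3] with k h1 h2 h4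
  have := logHeight₁_add_le (f k) (g k)
  linarith

theorem sl_mul {f g : ℕ → K} (hf : sl U T f) (hg : sl U T g) :
    sl U T (fun k => f k * g k) := by
  intro η hη
  have h3 : 0 < η / 2 := by positivity
  filter_upwards [hf _ h3, hg _ h3] with k h1 h2
  have := logHeight₁_mul_le (f k) (g k)
  linarith

theorem sl_neg {f : ℕ → K} (hf : sl U T f) : sl U T (fun k => - f k) := by
  intro η hη
  filter_upwards [hf η hη] with k h1
  rwa [logHeight₁_neg]

theorem sl_inv {f : ℕ → K} (hf : sl U T f) : sl U T (fun k => (f k)⁻¹) := by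
  intro η hη
  filter_upwards [hf η hη] with k h1
  rwa [logHeight₁_inv]

/-- the slow subfield -/
def SF (hT : ∀ R : ℝ, ∀ᶠ k in (U : Filter ℕ), R ≤ T k) (L : Type) [Field L]
    [Algebra (GK K U) L] : Subfield L where
  carrier := {z | ∃ f : ℕ → K, z = gl U L f ∧ sl U T f}
  mul_mem' := by
    rintro _ _ ⟨f, rfl, hf⟩ ⟨g, rfl, hg⟩
    exact ⟨_, (map_mul (gh U L) f g).symm, sl_mul hf hg⟩
  one_mem' := ⟨_, (map_one (gh U L (K := K))).symm, sl_const hT 1⟩
  add_mem' := by
    rintro _ _ ⟨f, rfl, hf⟩ ⟨g, rfl, hg⟩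
    exact ⟨_, (map_add (gh U L) f g).symm, sl_add hT hf hg⟩
  zero_mem' := ⟨_, (map_zero (gh U L (K := K))).symm, sl_const hT 0⟩
  neg_mem' := by
    rintro _ ⟨f, rfl, hf⟩
    exact ⟨_, (map_neg (gh U L) f).symm, sl_neg hf⟩
  inv_mem' := by
    rintro _ ⟨f, rfl, hf⟩
    exact ⟨_, (gl_inv U L f).symm, sl_inv hf⟩

theorem mem_SF (hT : ∀ R : ℝ, ∀ᶠ k in (U : Filter ℕ), R ≤ T k) (L : Type) [Field L]
    [Algebra (GK K U) L] (z : L) : z ∈ SF (K := K) hT L ↔ ∃ f : ℕ → K, z = gl U L f ∧ sl U T f :=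
  Iff.rfl

theorem slow_iff (f : ℕ → K) : slow U T (gm U f) ↔ sl U T f := by
  constructor
  · rintro ⟨g, hg, h⟩ η hη
    have h1 : ∀ᶠ k in (U : Filter ℕ), f k = g k := Filter.Germ.coe_eq.1 hg
    filter_upwards [h1, h η hη] with k h2 h3
    rwa [h2]
  · intro h
    exact ⟨f, rfl, h⟩

end slow

/-! ## The two directions -/

section main

variable {K : Type} [Field K] [NumberField K] {U : Ultrafilter ℕ} {T : ℕ → ℝ}
  (hT : ∀ R : ℝ, ∀ᶠ k in (U : Filter ℕ), R ≤ T k)
  {κ L : Type} [Field κ] [Field L] [Algebra (GK K U) L] [Algebra K κ] [Algebra κ L]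
  [Algebra K L]

include hT in
/-- slow germs are in the range of `κ` -/
theorem slow_range (hKL : KL (K := K) U T κ L) {f : ℕ → K} (hf : sl U T f) :
    ∃ c : κ, algebraMap κ L c = gl U L f := by
  have h := (hKL.rg (gl U L f)).2 ⟨Polynomial.X - Polynomial.C (gm U f),
    Polynomial.X_sub_C_ne_zero _, ?_, ?_⟩
  · exact h
  · intro i
    have e0 : gm U (fun _ => (0 : K)) = 0 := rfl
    have e1 : gm U (fun _ => (1 : K)) = 1 := rfl
    have en : gm U (fun k => - f k) = - gm U f := Filter.Germ.coe_neg f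
    rw [Polynomial.coeff_sub]
    match i with
    | 0 =>
      rw [Polynomial.coeff_X_zero, Polynomial.coeff_C_zero, zero_sub, ← en]
      exact (slow_iff _).2 (sl_neg hf)
    | 1 =>
      rw [Polynomial.coeff_X_one, Polynomial.coeff_C_succ, sub_zero, ← e1]
      exact (slow_iff _).2 (sl_const hT 1)
    | n + 2 =>
      rw [Polynomial.coeff_X_of_ne_one (by omega), Polynomial.coeff_C_succ, sub_zero, ← e0]
      exact (slow_iff _).2 (sl_const hT 0)
  · simp [gl]

theorem near {X : Type} (R : X → Prop) (F : X → ℝ) (h0 : ∀ x, R x → 0 ≤ F x)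
    (hR : ∃ x, R x) : ∃ x, R x ∧ ∀ y, R y → F x ≤ F y + 1 := by
  have hne : (F '' {x | R x}).Nonempty := by
    obtain ⟨x, hx⟩ := hR
    exact ⟨F x, x, hx, rfl⟩
  have hb : BddBelow (F '' {x | R x}) := by
    refine ⟨0, ?_⟩
    rintro _ ⟨x, hx, rfl⟩
    exact h0 x hx
  obtain ⟨_, ⟨x, hx, rfl⟩, h1⟩ := Real.lt_sInf_add_pos hne one_pos
  refine ⟨x, hx, fun y hy => ?_⟩
  have := csInf_le hb ⟨y, hy, rfl⟩
  linarith

theorem log_PH_nonneg {σ : Type} (h : MvPolynomial σ K) : 0 ≤ Real.log (PH h) :=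
  Real.log_nonneg (one_le_mulHeight _)

/-- the bound of the height by the heights of the coefficients -/
theorem log_PH_le {σ : Type} (N : Finset (σ →₀ ℕ)) {R : MvPolynomial σ K} (h0 : R ≠ 0)
    (f : (σ →₀ ℕ) → K) (hR : ∀ m, coeff m R = 0 ∨ (m ∈ N ∧ coeff m R = f m)) :
    Real.log (PH R) ≤ ∑ m ∈ N, logHeight₁ (f m) := by
  classical
  have hlog : ∀ v : AbsoluteValue K ℝ, Real.log (∏ m ∈ N, Mv v (f m)) =
      ∑ m ∈ N, Real.log (Mv v (f m)) := fun v =>
    Real.log_prod fun m _ => (Mv_pos v (f m)).ne'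
  have hfs : FS (K := K) (fun v => Real.log (∏ m ∈ N, Mv v (f m))) := by
    have h1 : FS (K := K) (fun v => ∑ m ∈ N, Real.log (Mv v (f m))) :=
      FS.sum N fun m _ => FS_log_Mv (f m)
    refine h1.mono fun v _ hv => ?_
    rw [hlog]
    exact hv
  have h1 := (Pool.Agent.Helper8.T3.MC.t K σ).2.2.1 R (fun v => ∏ m ∈ N, Mv v (f m)) h0
    ⟨fun v => Finset.one_le_prod fun m _ => one_le_Mv v (f m), hfs⟩ ?_
  · refine h1.trans (le_of_eq ?_)
    simp only [hlog]
    rw [PS_sum N fun m _ => FS_log_Mv (f m)]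
    exact Finset.sum_congr rfl fun m _ => PS_log_Mv (f m)
  · intro v m
    rcases hR m with h2 | ⟨h2, h3⟩
    · rw [h2, map_zero]
      exact Finset.prod_nonneg fun m _ => (Mv_pos v (f m)).le
    · rw [h3]
      calc v (f m) ≤ Mv v (f m) := le_max_right _ _
        _ = Mv v (f m) * 1 := (mul_one _).symm
        _ ≤ Mv v (f m) * ∏ m ∈ N.erase m, Mv v (f m) :=
          mul_le_mul_of_nonneg_left (Finset.one_le_prod fun m _ => one_le_Mv v (f m))
            (Mv_pos v (f m)).le
        _ = ∏ m ∈ N, Mv v (f m) := Finset.mul_prod_erase N (fun m => Mv v (f m)) h2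

variable {τ : Type} [Fintype τ] (s : τ → ℕ → K)

/-- the relations at `k` -/
def Rel (s : τ → ℕ → K) (D k : ℕ) (g : MvPolynomial τ K) : Prop :=
  g ≠ 0 ∧ (∀ i, g.degreeOf i ≤ D) ∧ eval (fun j => s j k) g = 0

theorem choose_rel (D k : ℕ) : ∃ g : MvPolynomial τ K, (∃ g', Rel s D k g') →
    Rel s D k g ∧ (∃ m, coeff m g = 1) ∧ ∀ g', Rel s D k g' →
      Real.log (PH g) ≤ Real.log (PH g') + 1 := by
  by_cases h : ∃ g', Rel s D k g'
  · obtain ⟨g, ⟨h1, h2, h3⟩, h4⟩ := near (Rel s D k) (fun g => Real.log (PH g))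
      (fun g _ => log_PH_nonneg g) h
    obtain ⟨m, hm⟩ := MvPolynomial.ne_zero_iff.1 h1
    have hc : (coeff m g)⁻¹ ≠ 0 := inv_ne_zero hm
    refine ⟨C (coeff m g)⁻¹ * g, fun _ => ⟨⟨?_, ?_, ?_⟩, ⟨m, ?_⟩, ?_⟩⟩
    · exact mul_ne_zero (by rwa [Ne, MvPolynomial.C_eq_zero]) h1
    · intro i
      exact (MvPolynomial.degreeOf_C_mul_le g i _).trans (h2 i)
    · rw [map_mul, h3, mul_zero]
    · rw [coeff_C_mul, inv_mul_cancel₀ hm]
    · intro g' hg'
      rw [Pool.Agent.Helper8.T3.MC.ph_smul hc]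
      exact h4 g' hg'
  · exact ⟨0, fun h' => absurd h' h⟩

include hT in
theorem free_of_indep (hKL : KL (K := K) U T κ L)
    (hx : AlgebraicIndependent κ (fun j => gl U L (s j))) : Free U T s := by
  classical
  by_contra hF
  obtain ⟨D, hD⟩ := not_forall.1 hF
  have hD' : ∀ η : ℝ, 0 < η → ∀ᶠ k in (U : Filter ℕ),
      Lo Finset.univ D (η * T k) (fun j => s j k) := by
    intro η hη
    by_contra h1
    exact hD ⟨η, hη, Ultrafilter.eventually_not.2 h1⟩
  choose g hg using choose_rel s D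
  have hev : ∀ᶠ k in (U : Filter ℕ), Rel s D k (g k) ∧ ∃ m, coeff m (g k) = 1 := by
    filter_upwards [hD' 1 one_pos] with k hk
    obtain ⟨g', h1, h2, -, h3, -⟩ := hk
    obtain ⟨h4, h5, -⟩ := hg k ⟨g', h1, h2, h3⟩
    exact ⟨h4, h5⟩
  have hsl : ∀ m, sl U T (fun k => coeff m (g k)) := by
    intro m η hη
    have h2 : 0 < η / 2 := by positivity
    filter_upwards [hD' _ h2, ev_const hT 1 h2] with k hk hk1
    obtain ⟨g', h1, h2, -, h3, h6⟩ := hk
    obtain ⟨-, h4, h5⟩ := hg k ⟨g', h1, h2, h3⟩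
    have h7 := h5 g' ⟨h1, h2, h3⟩
    have h8 := ((Pool.Agent.Helper8.T3.MC.t K τ).1 (g k) h4).2.2 m
    show logHeight₁ (coeff m (g k)) ≤ η * T k
    linarith
  have hB : ∃ B : Finset (τ →₀ ℕ), ∀ m : τ →₀ ℕ, (∀ i, m i ≤ D) → m ∈ B := by
    refine ⟨Finset.Iic (Finsupp.equivFunOnFinite.symm fun _ => D), fun m hm => ?_⟩
    rw [Finset.mem_Iic]
    intro i
    exact hm i
  obtain ⟨B, hB⟩ := hB
  have hsup : ∀ k, Rel s D k (g k) → ∀ m, coeff m (g k) ≠ 0 → m ∈ B := by
    intro k hk m hm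
    refine hB m fun i => ?_
    exact (MvPolynomial.monomial_le_degreeOf i (MvPolynomial.mem_support_iff.2 hm)).trans
      (hk.2.1 i)
  have hone : ∀ᶠ k in (U : Filter ℕ), ∃ m ∈ (B : Set (τ →₀ ℕ)), coeff m (g k) = 1 := by
    filter_upwards [hev] with k hk
    obtain ⟨h1, m, hm⟩ := hk
    exact ⟨m, hsup k h1 m (by rw [hm]; exact one_ne_zero), hm⟩
  obtain ⟨m₀, hm₀, hm1⟩ := (Ultrafilter.eventually_exists_mem_iff B.finite_toSet).1 hone
  have hc : ∀ m, ∃ c : κ, algebraMap κ L c = gl U L (fun k => coeff m (g k)) :=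
    fun m => slow_range hT hKL (hsl m)
  choose c hc using hc
  have hP : (∑ m ∈ B, monomial m (c m) : MvPolynomial τ κ) = 0 := by
    rw [algebraicIndependent_iff] at hx
    refine hx _ ?_
    rw [map_sum]
    have e : ∀ m ∈ B, aeval (fun j => gl U L (s j)) (monomial m (c m)) =
        gl U L (fun k => coeff m (g k)) * ∏ i, gl U L (s i) ^ m i := by
      intro m _
      rw [aeval_monomial, hc, Finsupp.prod_fintype _ _ (fun i => pow_zero _)]
    rw [Finset.sum_congr rfl e, gl_sum U L B (fun m i => m i), gl_eq_zero_iff]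
    filter_upwards [hev] with k hk
    obtain ⟨h1, -⟩ := hk
    rw [← h1.2.2, eval_eq']
    refine (Finset.sum_subset ?_ ?_).symm
    · intro m hm
      exact hsup k h1 m (MvPolynomial.mem_support_iff.1 hm)
    · intro m _ hm
      rw [MvPolynomial.notMem_support_iff.1 hm, zero_mul]
  have h0 : coeff m₀ (∑ m ∈ B, monomial m (c m) : MvPolynomial τ κ) = c m₀ := by
    rw [coeff_sum]
    simp only [coeff_monomial]
    rw [Finset.sum_ite_eq' B m₀ c, if_pos (Finset.mem_coe.1 hm₀)]
  rw [hP, coeff_zero] at h0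
  have h1 := hc m₀
  rw [← h0, map_zero] at h1
  have h2 := (gl_eq_zero_iff U L _).1 h1.symm
  obtain ⟨k, hk1, hk2⟩ := (hm1.and h2).exists
  rw [hk1] at hk2
  exact one_ne_zero hk2

include hT in
/-- the other direction over the slow field -/
theorem indep_SF (hF : Free U T s) :
    AlgebraicIndependent (SF (K := K) hT L) (fun j => gl U L (s j)) := by
  classical
  rw [algebraicIndependent_iff]
  intro p hp
  by_contra hp0
  have hc : ∀ m, ∃ f : ℕ → K, ((coeff m p : SF (K := K) hT L) : L) = gl U L f ∧ sl U T f :=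
    fun m => (mem_SF hT L _).1 (coeff m p).2
  choose f hf hfs using hc
  set q : ℕ → MvPolynomial τ K := fun k => ∑ m ∈ p.support, monomial m (f m k) with hq
  have hqc : ∀ k m, coeff m (q k) = if m ∈ p.support then f m k else 0 := by
    intro k m
    rw [hq]
    simp only
    rw [coeff_sum]
    simp only [coeff_monomial]
    rw [Finset.sum_ite_eq' p.support m (fun m => f m k)]
  obtain ⟨m₀, hm₀⟩ := MvPolynomial.ne_zero_iff.1 hp0
  have hm0 : m₀ ∈ p.support := MvPolynomial.mem_support_iff.2 hm₀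
  have hne : ∀ᶠ k in (U : Filter ℕ), q k ≠ 0 := by
    have h1 : ∀ᶠ k in (U : Filter ℕ), ¬ f m₀ k = 0 := by
      rw [Ultrafilter.eventually_not]
      intro h2
      have h3 := (gl_eq_zero_iff U L _).2 h2
      rw [← hf m₀] at h3
      exact hm₀ (Subtype.ext h3)
    filter_upwards [h1] with k hk hqk
    have := hqc k m₀
    rw [hqk, coeff_zero, if_pos hm0] at this
    exact hk this.symm
  have hev : ∀ᶠ k in (U : Filter ℕ), eval (fun j => s j k) (q k) = 0 := by
    have e : aeval (fun j => gl U L (s j)) p =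
        gl U L (fun k => ∑ m ∈ p.support, f m k * ∏ i, s i k ^ m i) := by
      rw [← gl_sum U L p.support (fun m i => m i) f s, aeval_def, eval₂_eq']
      refine Finset.sum_congr rfl fun m _ => ?_
      rw [← hf m]
      rfl
    rw [e, gl_eq_zero_iff] at hp
    filter_upwards [hp] with k hk
    rw [← hk, hq]
    simp only
    rw [map_sum]
    refine Finset.sum_congr rfl fun m _ => ?_
    rw [eval_monomial, Finsupp.prod_fintype _ _ (fun i => pow_zero _)]
  have hdeg : ∀ k i, (q k).degreeOf i ≤ p.totalDegree := by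
    intro k i
    rw [MvPolynomial.degreeOf_le_iff]
    intro m hm
    have h1 := MvPolynomial.mem_support_iff.1 hm
    rw [hqc] at h1
    have h2 : m ∈ p.support := by
      by_contra h3
      rw [if_neg h3] at h1
      exact h1 rfl
    exact (MvPolynomial.monomial_le_degreeOf i h2).trans (MvPolynomial.degreeOf_le_totalDegree p i)
  obtain ⟨η, hη, hlo⟩ := hF p.totalDegree
  have hη' : 0 < η / (p.support.card + 1) := by positivity
  have hall : ∀ᶠ k in (U : Filter ℕ), ∀ m ∈ p.support,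
      logHeight₁ (f m k) ≤ η / (p.support.card + 1) * T k := by
    rw [Filter.eventually_all_finset]
    intro m _
    exact hfs m _ hη'
  obtain ⟨k, ⟨⟨h1, h2⟩, h3, h4⟩, h5⟩ := (((hne.and hev).and (hall.and hlo)).and (hT 0)).exists
  refine h4 ⟨q k, h1, hdeg k, fun i hi => absurd (Finset.mem_univ i) hi, h2, ?_⟩
  have h6 : Real.log (PH (q k)) ≤ ∑ m ∈ p.support, logHeight₁ (f m k) := by
    refine log_PH_le p.support h1 (fun m => f m k) fun m => ?_
    rw [hqc]
    by_cases hm : m ∈ p.support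
    · right
      exact ⟨hm, if_pos hm⟩
    · left
      exact if_neg hm
  have h7 : ∑ m ∈ p.support, logHeight₁ (f m k) ≤
      p.support.card * (η / (p.support.card + 1) * T k) := by
    have := Finset.sum_le_card_nsmul p.support (fun m => logHeight₁ (f m k)) _ h3
    rwa [nsmul_eq_mul] at this
  have h8 : (p.support.card : ℝ) * (η / (p.support.card + 1) * T k) ≤ η * T k := by
    have h9 : (p.support.card : ℝ) * (η / (p.support.card + 1)) ≤ η := by
      rw [mul_div_assoc', div_le_iff₀ (by positivity)]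
      nlinarith
    calc (p.support.card : ℝ) * (η / (p.support.card + 1) * T k) =
        (p.support.card : ℝ) * (η / (p.support.card + 1)) * T k := by ring
      _ ≤ η * T k := mul_le_mul_of_nonneg_right h9 h5
  linarith

include hT in
/-- `κ` is algebraic over the slow field -/
theorem range_alg (hKL : KL (K := K) U T κ L) (c : κ) :
    algebraMap κ L c ∈ algebraicClosure (SF (K := K) hT L) L := by
  obtain ⟨p, hp0, hps, hp⟩ := (hKL.rg (algebraMap κ L c)).1 ⟨c, rfl⟩
  have h1 : p.map (algebraMap (GK K U) L) ∈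
      Polynomial.lifts (algebraMap (SF (K := K) hT L) L) := by
    rw [Polynomial.lifts_iff_coeff_lifts]
    intro n
    rw [Polynomial.coeff_map]
    obtain ⟨f, hf, hfs⟩ := hps n
    rw [hf]
    exact ⟨⟨gl U L f, f, rfl, hfs⟩, rfl⟩
  rw [Polynomial.mem_lifts] at h1
  obtain ⟨q, hq⟩ := h1
  rw [mem_algebraicClosure_iff]
  refine ⟨q, ?_, ?_⟩
  · rintro rfl
    rw [Polynomial.map_zero] at hq
    exact hp0 ((Polynomial.map_eq_zero _).1 hq.symm)
  · rw [Polynomial.aeval_def, Polynomial.eval₂_eq_eval_map, hq, ← Polynomial.eval₂_eq_eval_map]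
    exact hp

include hT in
theorem indep_of_free (hKL : KL (K := K) U T κ L) (hF : Free U T s) :
    AlgebraicIndependent κ (fun j => gl U L (s j)) := by
  have h1 := (indep_SF hT (L := L) s hF).algebraicClosure
  let φ : κ →+* algebraicClosure (SF (K := K) hT L) L :=
    (algebraMap κ L).codRestrict _ (range_alg hT hKL)
  rw [algebraicIndependent_iff] at h1 ⊢
  intro p hp
  have h2 : MvPolynomial.map φ p = 0 := by
    refine h1 _ ?_
    rw [aeval_def, eval₂_map, ← hp, aeval_def]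
    rfl
  exact MvPolynomial.map_injective φ φ.injective (by rw [h2, map_zero])

end main

theorem t_LNK : Pool.Agent.Helper42.TG.LNK := by
  intro K _ _ U T hT κ L _ _ _ _ _ _ _ _ hKL τ _ s
  exact ⟨free_of_indep hT s hKL, indep_of_free hT s hKL⟩

end Pool.Agent.Helper14.TG
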